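import Pool.Agent.H6.OrthReals

set_option autoImplicit false

namespace Pool.Agent.Results.MP_e29ee7_lc.UncountableCofinality

open Set

/-! ### The general notions -/

/-- A partial order is a tree if the set of elements below any element is a chain. -/
def IsTree (T : Type) [PartialOrder T] : Prop :=
  ∀ x : T, IsChain (· ≤ ·) {y : T | y < x}

/-- The tree is a union of countably many chains. -/
def CountableUnionOfChains (T : Type) [PartialOrder T] : Prop :=
  ∃ L : ℕ → Set T, (∀ n, IsChain (· ≤ ·) (L n)) ∧ ⋃ n, L n = Set.univ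

/-- `C(T)`: the maximal chains of `T`. -/
abbrev Branch (T : Type) [PartialOrder T] : Type := {A : Set T // IsMaxChain (· ≤ ·) A}

/-- `A ≤ B`: there is an order-preserving injection of `A` into `B`. -/
def Embeds {T : Type} [PartialOrder T] (A B : Branch T) : Prop :=
  ∃ e : A.1 → B.1, StrictMono e

/-- `K'` is cofinal in `K`. -/
def IsCofinalIn {T : Type} [PartialOrder T] (K' K : Set (Branch T)) : Prop :=
  K' ⊆ K ∧ ∀ A ∈ K, ∃ B ∈ K', Embeds A B

/-! ### The linear order containing all branches -/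

/-- Positions and reals, ordered lexicographically. -/
abbrev W : Type := ℤ ×ₗ (ℤ ×ₗ ℝ)

/-- Constructor. -/
def mk (a b : ℤ) (x : ℝ) : W := toLex (a, toLex (b, x))

/-- First coordinate. -/
def pa (w : W) : ℤ := (ofLex w).1
/-- Second coordinate. -/
def pb (w : W) : ℤ := (ofLex (ofLex w).2).1
/-- Third coordinate. -/
def px (w : W) : ℝ := (ofLex (ofLex w).2).2

theorem mk_eta (w : W) : mk (pa w) (pb w) (px w) = w := rfl

theorem lt_iff (w v : W) : w < v ↔
    pa w < pa v ∨ (pa w = pa v ∧ (pb w < pb v ∨ (pb w = pb v ∧ px w < px v))) := by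
  rw [← mk_eta w, ← mk_eta v]
  unfold mk
  rw [Prod.Lex.toLex_lt_toLex]
  simp only [Prod.Lex.toLex_lt_toLex]
  rfl

/-- The level of a position: `0` in the lower part and `a + 1` at position `a ≥ 0`. -/
def level (w : W) : ℕ := (pa w + 1).toNat

theorem level_mono : Monotone level := by
  intro w v hwv
  unfold level
  apply Int.toNat_le_toNat
  rcases hwv.lt_or_eq with h | h
  · rcases (lt_iff _ _).1 h with h | h
    · omega
    · omega
  · rw [h]

/-- The orthogonal family of sets of reals. -/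
noncomputable def A : ℕ → Set ℝ := Classical.choose Pool.Agent.H6.OrthReals.exists_orth

theorem A_spec (c : ℕ) (S : ℕ → Set ℝ) (c' : ℕ → ℕ)
    (φ : ℕ → ℝ → ℝ) (h1 : ∀ l, c' l ≠ c) (h2 : ∀ l, StrictMonoOn (φ l) (S l))
    (h3 : ∀ l, ∀ x ∈ S l, φ l x ∈ A (c' l)) : ¬ A c ⊆ ⋃ l, S l :=
  Classical.choose_spec Pool.Agent.H6.OrthReals.exists_orth c S c' φ h1 h2 h3

/-- `D k j` is the union of the sets with codes `(k, 0), ..., (k, j)`. -/
noncomputable def D (k j : ℕ) : Set ℝ := {x | ∃ i, i ≤ j ∧ x ∈ A (Nat.pair k i)}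

theorem A_nonempty (c : ℕ) : (A c).Nonempty := by
  by_contra hcon
  rw [not_nonempty_iff_eq_empty] at hcon
  refine A_spec c (fun _ => ∅) (fun _ => c + 1) (fun _ x => x) (fun _ => by omega)
    (fun _ x hx => absurd hx (notMem_empty x)) (fun _ x hx => absurd hx (notMem_empty x)) ?_
  rw [hcon]
  exact empty_subset _

theorem D_nonempty (k j : ℕ) : (D k j).Nonempty := by
  obtain ⟨x, hx⟩ := A_nonempty (Nat.pair k 0)
  exact ⟨x, 0, Nat.zero_le _, hx⟩

theorem D_mono (k : ℕ) {i j : ℕ} (hij : i ≤ j) : D k i ⊆ D k j := by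
  rintro x ⟨l, hl, hx⟩
  exact ⟨l, hl.trans hij, hx⟩

/-- The set of all points allowed when the values along the branch are given by `f`. -/
def ok (f : ℕ → ℕ) (w : W) : Prop :=
  (pa w < 0 ∧ pb w ≤ 0 ∧
    px w ∈ D (Nat.unpair (-pb w).toNat).1 (Nat.unpair (-pb w).toNat).2) ∨
  (0 ≤ pa w ∧ pb w = 0 ∧ px w ∈ D (pa w).toNat (f (pa w).toNat))

/-! ### The tree -/

/-- The tree: a point is a finite sequence (its node) and an element of `W` at the level given by
the length of the sequence. -/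
def T : Type := {t : List ℕ × W // t.1.length = level t.2 ∧ ok (fun n => t.1.getD n 0) t.2}

instance : PartialOrder T where
  le t s := t.1.1 <+: s.1.1 ∧ t.1.2 ≤ s.1.2
  le_refl t := ⟨List.prefix_refl _, le_refl _⟩
  le_trans a b c hab hbc := ⟨hab.1.trans hbc.1, hab.2.trans hbc.2⟩
  le_antisymm a b hab hba := by
    apply Subtype.ext
    refine Prod.ext ?_ (le_antisymm hab.2 hba.2)
    exact hab.1.eq_of_length (le_antisymm hab.1.length_le hba.1.length_le)

theorem T_le (t s : T) : t ≤ s ↔ t.1.1 <+: s.1.1 ∧ t.1.2 ≤ s.1.2 := Iff.rfl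

/-- Two elements with prefix-comparable nodes are comparable. -/
theorem comparable (t s : T) (h : t.1.1 <+: s.1.1 ∨ s.1.1 <+: t.1.1) : t ≤ s ∨ s ≤ t := by
  have key : ∀ t s : T, (t.1.1 <+: s.1.1 ∨ s.1.1 <+: t.1.1) → t.1.2 ≤ s.1.2 → t ≤ s := by
    intro t s h hw
    refine ⟨?_, hw⟩
    have hl : t.1.1.length ≤ s.1.1.length := by
      rw [t.2.1, s.2.1]
      exact level_mono hw
    rcases h with h | h
    · exact h
    · rw [h.eq_of_length (le_antisymm h.length_le hl)]
  rcases le_total t.1.2 s.1.2 with hw | hw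
  · exact Or.inl (key t s h hw)
  · exact Or.inr (key s t h.symm hw)

theorem T_tree : IsTree T := by
  intro x y hy z hz _
  have hy' : y < x := hy
  have hz' : z < x := hz
  exact comparable y z (List.prefix_or_prefix_of_prefix ((T_le _ _).1 hy'.le).1
    ((T_le _ _).1 hz'.le).1)

theorem T_countable_union : CountableUnionOfChains T := by
  obtain ⟨e, he⟩ := exists_surjective_nat (List ℕ)
  refine ⟨fun n => {t | t.1.1 = e n}, fun n t ht s hs _ => ?_, ?_⟩
  · refine comparable t s (Or.inl ?_)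
    rw [show t.1.1 = e n from ht, show s.1.1 = e n from hs]
  · refine eq_univ_of_forall fun t => mem_iUnion.2 ?_
    obtain ⟨n, hn⟩ := he t.1.1
    exact ⟨n, hn.symm⟩

/-- The initial segment of length `n` of the sequence `f`. -/
def pre (f : ℕ → ℕ) (n : ℕ) : List ℕ := (List.range n).map f

theorem pre_length (f : ℕ → ℕ) (n : ℕ) : (pre f n).length = n := by simp [pre]

theorem pre_prefix (f : ℕ → ℕ) {n m : ℕ} (h : n ≤ m) : pre f n <+: pre f m := by
  have : pre f n = (pre f m).take n := by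
    unfold pre
    rw [← List.map_take, List.take_range, min_eq_left h]
  rw [this]
  exact List.take_prefix _ _

theorem pre_getD (f : ℕ → ℕ) {n i : ℕ} (h : i < n) : (pre f n).getD i 0 = f i := by
  simp [pre, h]

/-- The branch determined by `f`. -/
def br (f : ℕ → ℕ) : Set T := {t | t.1.1 = pre f (level t.1.2)}

theorem br_chain (f : ℕ → ℕ) : IsChain (· ≤ ·) (br f) := by
  intro t ht s hs _
  refine comparable t s ?_
  rw [show t.1.1 = pre f (level t.1.2) from ht, show s.1.1 = pre f (level s.1.2) from hs]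
  rcases le_total (level t.1.2) (level s.1.2) with h | h
  · exact Or.inl (pre_prefix f h)
  · exact Or.inr (pre_prefix f h)

theorem chain_sub (L : Set T) (hL : IsChain (· ≤ ·) L) : ∃ f, L ⊆ br f := by
  classical
  let f : ℕ → ℕ := fun n => if h : ∃ t ∈ L, n < t.1.1.length then
    (Classical.choose h).1.1.getD n 0 else 0
  have hf : ∀ t ∈ L, ∀ n, n < t.1.1.length → t.1.1.getD n 0 = f n := by
    intro t ht n hn
    have h : ∃ t ∈ L, n < t.1.1.length := ⟨t, ht, hn⟩
    have hs := Classical.choose_spec h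
    have hfn : f n = (Classical.choose h).1.1.getD n 0 := dif_pos h
    rw [hfn]
    set s := Classical.choose h with hsdef
    have hpre : t.1.1 <+: s.1.1 ∨ s.1.1 <+: t.1.1 := by
      by_cases hts : t = s
      · rw [hts]; exact Or.inl (List.prefix_refl _)
      · rcases hL ht hs.1 hts with h | h
        · exact Or.inl h.1
        · exact Or.inr h.1
    rw [List.getD_eq_getElem _ _ hn, List.getD_eq_getElem _ _ hs.2]
    rcases hpre with h | h
    · exact h.getElem hn
    · exact (h.getElem hs.2).symm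
  refine ⟨f, fun t ht => ?_⟩
  change t.1.1 = pre f (level t.1.2)
  apply List.ext_getElem
  · rw [pre_length, t.2.1]
  · intro n h1 h2
    have h3 := hf t ht n h1
    rw [List.getD_eq_getElem _ _ h1] at h3
    rw [h3]
    simp [pre]

theorem ok_congr (f g : ℕ → ℕ) (w : W) (h : ∀ n < level w, f n = g n) (hf : ok f w) :
    ok g w := by
  rcases hf with hf | ⟨h1, h2, h3⟩
  · exact Or.inl hf
  · refine Or.inr ⟨h1, h2, ?_⟩
    rw [← h _ (by unfold level; omega)]
    exact h3

/-- A point of the branch `br f` above a given element of `W`. -/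
def point (f : ℕ → ℕ) (w : W) (hw : ok f w) : T :=
  ⟨(pre f (level w), w), pre_length _ _,
    ok_congr f _ w (fun n hn => (pre_getD f hn).symm) hw⟩

theorem point_mem (f : ℕ → ℕ) (w : W) (hw : ok f w) : point f w hw ∈ br f := rfl

theorem ok_of_mem (f : ℕ → ℕ) (t : T) (ht : t ∈ br f) : ok f t.1.2 := by
  refine ok_congr _ f _ ?_ t.2.2
  intro n hn
  rw [show t.1.1 = pre f (level t.1.2) from ht]
  exact pre_getD f hn

theorem lt_of_mem (f : ℕ → ℕ) (t s : T) (ht : t ∈ br f) (hs : s ∈ br f) :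
    t < s ↔ t.1.2 < s.1.2 := by
  have hle : ∀ t s : T, t ∈ br f → s ∈ br f → (t ≤ s ↔ t.1.2 ≤ s.1.2) := by
    intro t s ht hs
    refine ⟨fun h => h.2, fun h => ⟨?_, h⟩⟩
    rw [show t.1.1 = pre f (level t.1.2) from ht, show s.1.1 = pre f (level s.1.2) from hs]
    exact pre_prefix f (level_mono h)
  rw [lt_iff_le_not_ge, lt_iff_le_not_ge, hle t s ht hs, hle s t hs ht]

theorem br_inj (f g : ℕ → ℕ) (h : br f ⊆ br g) : f = g := by
  funext n
  obtain ⟨x, hx⟩ := D_nonempty n (f n)
  have hw : ok f (mk n 0 x) := by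
    right
    refine ⟨Int.natCast_nonneg n, rfl, ?_⟩
    change x ∈ D ((n : ℤ).toNat) (f (n : ℤ).toNat)
    rw [Int.toNat_natCast]
    exact hx
  have h1 := h (point_mem f _ hw)
  have h2 : pre f (level (mk n 0 x)) = pre g (level (mk n 0 x)) := h1
  have h3 : level (mk n 0 x) = n + 1 := by
    change ((n : ℤ) + 1).toNat = n + 1
    omega
  rw [h3] at h2
  rw [← pre_getD f (Nat.lt_succ_self n), ← pre_getD g (Nat.lt_succ_self n), h2]

theorem br_max (f : ℕ → ℕ) : IsMaxChain (· ≤ ·) (br f) := by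
  refine ⟨br_chain f, fun L hL hsub => ?_⟩
  obtain ⟨g, hg⟩ := chain_sub L hL
  have := br_inj f g (hsub.trans hg)
  subst this
  exact subset_antisymm hsub hg

theorem exists_br (L : Branch T) : ∃ f, L.1 = br f := by
  obtain ⟨f, hf⟩ := chain_sub L.1 L.2.1
  exact ⟨f, L.2.2 (br_chain f) hf⟩

/-- The branch as an element of `C(T)`. -/
def brB (f : ℕ → ℕ) : Branch T := ⟨br f, br_max f⟩

/-! ### Embeddings between branches -/

/-- A point of the branch as an element of the subtype. -/
def elt (f : ℕ → ℕ) (w : W) (hw : ok f w) : (brB f).1 := ⟨point f w hw, point_mem f w hw⟩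

theorem elt_w (f : ℕ → ℕ) (w : W) (hw : ok f w) : (elt f w hw).1.1.2 = w := rfl

theorem sub_lt (f : ℕ → ℕ) (t s : (brB f).1) : t < s ↔ t.1.1.2 < s.1.1.2 :=
  lt_of_mem f t.1 s.1 t.2 s.2

theorem sub_ok (f : ℕ → ℕ) (t : (brB f).1) : ok f t.1.1.2 := ok_of_mem f t.1 t.2

theorem embeds_of_map (f g : ℕ → ℕ) (φ : W → W) (h1 : ∀ w, ok f w → ok g (φ w))
    (h2 : ∀ w v, ok f w → ok f v → w < v → φ w < φ v) : Embeds (brB f) (brB g) := by
  refine ⟨fun t => elt g (φ t.1.1.2) (h1 _ (sub_ok f t)), ?_⟩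
  intro t s hts
  rw [sub_lt] at hts ⊢
  exact h2 _ _ (sub_ok f t) (sub_ok f s) hts

theorem map_of_embeds (f g : ℕ → ℕ) (h : Embeds (brB f) (brB g)) :
    ∃ φ : W → W, (∀ w, ok f w → ok g (φ w)) ∧
      ∀ w v, ok f w → ok f v → w < v → φ w < φ v := by
  classical
  obtain ⟨e, he⟩ := h
  let φ : W → W := fun w => if hw : ok f w then (e (elt f w hw)).1.1.2 else w
  have hφ : ∀ w (hw : ok f w), φ w = (e (elt f w hw)).1.1.2 := fun w hw => dif_pos hw
  refine ⟨φ, fun w hw => ?_, fun w v hw hv hwv => ?_⟩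
  · rw [hφ w hw]
    exact sub_ok g _
  · rw [hφ w hw, hφ v hv, ← sub_lt]
    apply he
    rw [sub_lt]
    exact hwv

/-- If `f k ≤ g k` for all `k ≥ n`, then the branch of `f` embeds in the branch of `g`. -/
theorem embeds_of_le (f g : ℕ → ℕ) (n : ℕ) (h : ∀ k, n ≤ k → f k ≤ g k) :
    Embeds (brB f) (brB g) := by
  let φ : W → W := fun w =>
    if pa w < n then
      mk (pa w - n) (if pa w < 0 then pb w else -(Nat.pair (pa w).toNat (f (pa w).toNat) : ℤ))
        (px w)
    else w
  have hpa : ∀ w, pa w < n → pa (φ w) = pa w - n := fun w hw => by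
    simp only [φ, if_pos hw]; rfl
  have hpb : ∀ w, pa w < n → pb (φ w) =
      if pa w < 0 then pb w else -(Nat.pair (pa w).toNat (f (pa w).toNat) : ℤ) := fun w hw => by
    simp only [φ, if_pos hw]; rfl
  have hpx : ∀ w, px (φ w) = px w := fun w => by
    by_cases hw : pa w < n
    · simp only [φ, if_pos hw]; rfl
    · simp only [φ, if_neg hw]
  have hge : ∀ w, ¬ pa w < n → φ w = w := fun w hw => by simp only [φ, if_neg hw]
  refine embeds_of_map f g φ ?_ ?_
  · intro w hw
    rcases hw with ⟨h1, h2, h3⟩ | ⟨h1, h2, h3⟩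
    · have hlt : pa w < n := by omega
      left
      rw [hpa w hlt, hpb w hlt, hpx w, if_pos h1]
      exact ⟨by omega, h2, h3⟩
    · by_cases hlt : pa w < n
      · left
        rw [hpa w hlt, hpb w hlt, hpx w, if_neg (by omega)]
        refine ⟨by omega, by omega, ?_⟩
        rw [neg_neg, Int.toNat_natCast, Nat.unpair_pair]
        exact h3
      · right
        rw [hge w hlt]
        refine ⟨h1, h2, D_mono _ (h _ ?_) h3⟩
        omega
  · intro w v hw hv hwv
    rw [lt_iff] at hwv ⊢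
    by_cases hw' : pa w < n
    · by_cases hv' : pa v < n
      · rw [hpa w hw', hpa v hv', hpb w hw', hpb v hv', hpx, hpx]
        rcases hwv with h1 | ⟨h1, h2⟩
        · left; omega
        · right
          refine ⟨by omega, ?_⟩
          rw [h1]
          by_cases h0 : pa v < 0
          · rw [if_pos h0, if_pos h0]
            exact h2
          · rw [if_neg h0, if_neg h0]
            right
            refine ⟨rfl, ?_⟩
            have hw0 : pb w = 0 := by
              rcases hw with ⟨h3, _⟩ | ⟨_, h3, _⟩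
              · omega
              · exact h3
            have hv0 : pb v = 0 := by
              rcases hv with ⟨h3, _⟩ | ⟨_, h3, _⟩
              · omega
              · exact h3
            rcases h2 with h2 | h2
            · omega
            · exact h2.2
      · left
        rw [hpa w hw', hge v hv']
        omega
    · have hv' : ¬ pa v < n := by
        rcases hwv with h1 | ⟨h1, _⟩ <;> omega
      rw [hge w hw', hge v hv']
      exact hwv

/-- If `g k < f k` then an embedding sends some point of level `k` to the lower part, to a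
position of type `k`. -/
theorem drop (f g : ℕ → ℕ) (φ : W → W) (h1 : ∀ w, ok f w → ok g (φ w))
    (h2 : ∀ w v, ok f w → ok f v → w < v → φ w < φ v) (k : ℕ) (hk : g k < f k) :
    ∃ x, ok f (mk k 0 x) ∧ pa (φ (mk k 0 x)) < 0 ∧ pb (φ (mk k 0 x)) ≤ 0 ∧
      (Nat.unpair (-pb (φ (mk k 0 x))).toNat).1 = k := by
  by_contra hcon
  push Not at hcon
  set c := Nat.pair k (f k) with hc
  have hok : ∀ x ∈ A c, ok f (mk k 0 x) := by
    intro x hx
    right
    refine ⟨Int.natCast_nonneg k, rfl, ?_⟩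
    change x ∈ D ((k : ℤ).toNat) (f (k : ℤ).toNat)
    rw [Int.toNat_natCast]
    exact ⟨f k, le_rfl, hx⟩
  obtain ⟨e, he⟩ := exists_surjective_nat (ℤ × ℤ × ℕ)
  let S : ℕ → Set ℝ := fun l => {x | x ∈ A c ∧ pa (φ (mk k 0 x)) = (e l).1 ∧
    pb (φ (mk k 0 x)) = (e l).2.1 ∧ px (φ (mk k 0 x)) ∈ A (e l).2.2 ∧ (e l).2.2 ≠ c}
  refine A_spec c S (fun l => if (e l).2.2 = c then c + 1 else (e l).2.2)
    (fun _ x => px (φ (mk k 0 x))) ?_ ?_ ?_ ?_
  · intro l
    by_cases hl : (e l).2.2 = c
    · simp only [if_pos hl]; omega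
    · simp only [if_neg hl]; exact hl
  · intro l x hx y hy hxy
    have h3 : mk k 0 x < mk k 0 y := by
      rw [lt_iff]
      exact Or.inr ⟨rfl, Or.inr ⟨rfl, hxy⟩⟩
    have h4 := h2 _ _ (hok x hx.1) (hok y hy.1) h3
    rw [lt_iff, hx.2.1, hy.2.1, hx.2.2.1, hy.2.2.1] at h4
    rcases h4 with h4 | ⟨_, h4 | h4⟩
    · exact absurd h4 (lt_irrefl _)
    · exact absurd h4 (lt_irrefl _)
    · exact h4.2
  · intro l x hx
    simp only [if_neg hx.2.2.2.2]
    exact hx.2.2.2.1
  · intro x hx
    rw [mem_iUnion]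
    have h3 := h1 _ (hok x hx)
    have h4 := hcon x (hok x hx)
    obtain ⟨c', hc', hne⟩ : ∃ c', px (φ (mk k 0 x)) ∈ A c' ∧ c' ≠ c := by
      rcases h3 with ⟨h5, h6, i, _, h7⟩ | ⟨h5, h6, i, hi, h7⟩
      · refine ⟨_, h7, fun heq => h4 h5 h6 ?_⟩
        rw [hc, Nat.pair_eq_pair] at heq
        exact heq.1
      · refine ⟨_, h7, fun heq => ?_⟩
        rw [hc, Nat.pair_eq_pair] at heq
        rw [heq.1, heq.2] at hi
        omega
    obtain ⟨l, hl⟩ := he (pa (φ (mk k 0 x)), pb (φ (mk k 0 x)), c')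
    refine ⟨l, hx, ?_, ?_, ?_, ?_⟩
    · rw [hl]
    · rw [hl]
    · rw [hl]; exact hc'
    · rw [hl]; exact hne

theorem not_embeds (f g : ℕ → ℕ) (h : ∀ n, ∃ k, n ≤ k ∧ g k < f k) :
    ¬ Embeds (brB f) (brB g) := by
  intro hemb
  obtain ⟨φ, h1, h2⟩ := map_of_embeds f g hemb
  have h3 := drop f g φ h1 h2
  choose x hx using h3
  let r : (k : ℕ) → g k < f k → ℕ ×ₗ ℕ := fun k hk =>
    toLex ((-pa (φ (mk k 0 (x k hk)))).toNat, (-pb (φ (mk k 0 (x k hk)))).toNat)
  let R : Set (ℕ ×ₗ ℕ) := {p | ∃ k, ∃ hk : g k < f k, r k hk = p}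
  have hR : R.Nonempty := by
    obtain ⟨k, _, hk⟩ := h 0
    exact ⟨_, k, hk, rfl⟩
  obtain ⟨_, ⟨k, hk, rfl⟩, hmin⟩ :=
    (wellFounded_lt (α := ℕ ×ₗ ℕ)).has_min R hR
  obtain ⟨m, hm, hm'⟩ := h (k + 1)
  refine hmin (r m hm') ⟨m, hm', rfl⟩ ?_
  have hlt : mk k 0 (x k hk) < mk m 0 (x m hm') := by
    rw [lt_iff]
    left
    change (k : ℤ) < (m : ℤ)
    omega
  obtain ⟨hok1, ha1, hb1, ht1⟩ := hx k hk
  obtain ⟨hok2, ha2, hb2, ht2⟩ := hx m hm'
  have h4 := h2 _ _ hok1 hok2 hlt
  rw [lt_iff] at h4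
  change toLex _ < toLex _
  rw [Prod.Lex.toLex_lt_toLex]
  simp only
  rcases h4 with h4 | ⟨h4, h5 | h5⟩
  · left; omega
  · right
    refine ⟨by rw [h4], by omega⟩
  · exfalso
    rw [h5.1] at ht1
    rw [ht1] at ht2
    omega

/-! ### The cofinality -/

theorem embeds_trans {a b c : Branch T} (h1 : Embeds a b) (h2 : Embeds b c) : Embeds a c := by
  obtain ⟨e, he⟩ := h1
  obtain ⟨e', he'⟩ := h2
  exact ⟨e' ∘ e, he'.comp he⟩

theorem embeds_refl (a : Branch T) : Embeds a a := ⟨id, strictMono_id⟩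

theorem exists_strict_bound (B : ℕ → Branch T) :
    ∃ G : Branch T, ∀ n, Embeds (B n) G ∧ ¬ Embeds G (B n) := by
  choose F hF using fun n => exists_br (B n)
  have hBF : ∀ n, B n = brB (F n) := fun n => Subtype.ext (hF n)
  let g : ℕ → ℕ := fun k => (Finset.range (k + 1)).sup (fun n => F n k) + 1
  have hg : ∀ n k, n ≤ k → F n k < g k := by
    intro n k hnk
    have : F n k ≤ (Finset.range (k + 1)).sup (fun n => F n k) :=
      Finset.le_sup (f := fun n => F n k) (Finset.mem_range.2 (by omega))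
    simp only [g]
    omega
  refine ⟨brB g, fun n => ⟨?_, ?_⟩⟩
  · rw [hBF n]
    exact embeds_of_le _ _ n fun k hk => (hg n k hk).le
  · rw [hBF n]
    exact not_embeds _ _ fun m => ⟨max m n, le_max_left _ _, hg n _ (le_max_right _ _)⟩

theorem uncountable_cofinality (K : Set (Branch T)) (hK : IsMaxChain Embeds K)
    (K' : Set (Branch T)) (hcof : IsCofinalIn K' K) : ¬ K'.Countable := by
  intro hc
  have hKne : K.Nonempty := by
    by_contra hcon
    rw [not_nonempty_iff_eq_empty] at hcon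
    have h1 : IsChain Embeds ({brB 0} : Set (Branch T)) := IsChain.singleton
    have h2 := hK.2 h1 (by rw [hcon]; exact empty_subset _)
    rw [hcon] at h2
    exact (singleton_ne_empty _) h2.symm
  have hK'ne : K'.Nonempty := by
    obtain ⟨a, ha⟩ := hKne
    obtain ⟨b, hb, _⟩ := hcof.2 a ha
    exact ⟨b, hb⟩
  obtain ⟨B, rfl⟩ := hc.exists_eq_range hK'ne
  obtain ⟨G, hG⟩ := exists_strict_bound B
  have hup : ∀ a ∈ K, Embeds a G := by
    intro a ha
    obtain ⟨_, ⟨n, rfl⟩, hb⟩ := hcof.2 a ha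
    exact embeds_trans hb (hG n).1
  have hGK : G ∈ K := by
    have h1 : IsChain Embeds (insert G K) := by
      refine hK.1.insert fun a ha _ => Or.inr (hup a ha)
    rw [hK.2 h1 (subset_insert _ _)]
    exact mem_insert _ _
  obtain ⟨_, ⟨n, rfl⟩, hb⟩ := hcof.2 G hGK
  exact (hG n).2 hb

theorem result :
    ∃ (T : Type) (_ : PartialOrder T), IsTree T ∧ CountableUnionOfChains T ∧
      (∃ K : Set (Branch T), IsMaxChain Embeds K) ∧
      ∀ K : Set (Branch T), IsMaxChain Embeds K →
        ∀ K' : Set (Branch T), IsCofinalIn K' K → ¬ K'.Countable := by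
  refine ⟨T, inferInstance, T_tree, T_countable_union, ?_, uncountable_cofinality⟩
  obtain ⟨K, hK, _⟩ := (IsChain.empty (r := (Embeds : Branch T → Branch T → Prop))).exists_maxChain
  exact ⟨K, hK⟩

end Pool.Agent.Results.MP_e29ee7_lc.UncountableCofinality
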